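import Mathlib
import Pool.Prelude.Def_F_c31e40fa
import Pool.Agent.TH907.ML.M12

set_option autoImplicit false

open Filter Topology N62a1eb23

namespace Pool.Agent.Results.MP_c6f924_an.CoefficientLimits

open Pool.Agent.H713R2

/-- The exterior conformal map `ψ` of the Mandelbrot set (it exists), `log ψ' z = ∑ a m / z ^ m`
with `a 0 = 0`. There are rational numbers `α k` (`α 0 = 0`) such that

(1) for every `k ≥ 1` the coefficients `a (k 2 ^ n)` converge to `α k` as `n → ∞`, with error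
`O_k (2 ^ (-⌊n / 6⌋))`;

(2) `α (2 k) = α k`, `|α k| ≤ 24`, `α 1 = -1/4` and `α 3 = -11/96`;

(3) the mean of `log ψ'` over the `2 ^ n` points `ζ` with `ζ ^ (2 ^ n) = w` converges, as `n → ∞`,
to `∑ α k / w ^ k`, uniformly in `|w| ≥ R` for every `R > 1`;

(4) for every finite set `S` of odd numbers and every `ε > 0`, the mean square of `log ψ'` over the
circle of radius `r` is at least `((∑_{k ∈ S} α k ^ 2) / log 2 - ε) log (1 / (r - 1))` for all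
`r > 1` close to `1`. -/
theorem result :
    (∃ ψ : ℂ → ℂ, IsExteriorMap mandelbrotSet ψ) ∧
    ∀ ψ : ℂ → ℂ, IsExteriorMap mandelbrotSet ψ →
      ∃ (a : ℕ → ℂ) (α : ℕ → ℚ), a 0 = 0 ∧ α 0 = 0 ∧
        (∀ z : ℂ, 1 < ‖z‖ → Summable (fun m : ℕ => a m / z ^ m) ∧
          Complex.exp (∑' m : ℕ, a m / z ^ m) = deriv ψ z) ∧
        (∀ k : ℕ, 1 ≤ k → ∃ C : ℝ, ∀ n : ℕ, ‖a (k * 2 ^ n) - (α k : ℂ)‖ ≤ C / 2 ^ (n / 6)) ∧
        (∀ k : ℕ, α (2 * k) = α k) ∧ (∀ k : ℕ, |α k| ≤ 24) ∧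
        α 1 = -1 / 4 ∧ α 3 = -11 / 96 ∧
        (∀ R : ℝ, 1 < R → ∀ ε : ℝ, 0 < ε → ∃ n₀ : ℕ, ∀ n : ℕ, n₀ ≤ n → ∀ z : ℂ,
          R ≤ ‖z‖ ^ (2 ^ n) →
          ‖((2 : ℂ) ^ n)⁻¹ * ∑ j ∈ Finset.range (2 ^ n),
              (∑' m : ℕ, a m / (z * Complex.exp (2 * Real.pi * Complex.I / 2 ^ n) ^ j) ^ m) -
            ∑' k : ℕ, (α k : ℂ) / (z ^ (2 ^ n)) ^ k‖ < ε) ∧
        (∀ S : Finset ℕ, (∀ k ∈ S, Odd k) → ∀ ε : ℝ, 0 < ε → ∃ r₀ : ℝ, 1 < r₀ ∧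
          ∀ r : ℝ, 1 < r → r < r₀ →
            ((∑ k ∈ S, (α k : ℝ) ^ 2) / Real.log 2 - ε) * Real.log (1 / (r - 1)) ≤
              (2 * Real.pi)⁻¹ * ∫ θ in (0 : ℝ)..2 * Real.pi,
                ‖∑' m : ℕ, a m / (r * Complex.exp (θ * Complex.I)) ^ m‖ ^ 2) := by
  obtain ⟨β, hβ⟩ := exists_beta (d := 2) le_rfl
  refine ⟨⟨_, exteriorMap_of_beta hβ⟩, ?_⟩
  intro ψ hψ
  obtain ⟨a, α, h0, h1, h2, h3, h4, h5, h6, h7, h8, h9⟩ :=
    Pool.Agent.TH907.ML.core (d := 2) le_rfl hψ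
  refine ⟨a, α, h0, h1, h2, ?_, h4, h7, ?_, h6 rfl, ?_, ?_⟩
  · intro k hk
    obtain ⟨C, hC⟩ := h3 k hk
    exact ⟨C, fun n => by simpa using hC n⟩
  · rw [show 1 = 2 - 1 from rfl, h5]
    norm_num
  · intro R hR ε hε
    obtain ⟨n₀, h⟩ := h8 R hR ε hε
    exact ⟨n₀, fun n hn z hz => by simpa using h n hn z hz⟩
  · intro S hS ε hε
    obtain ⟨r₀, hr, h⟩ := h9 S (fun k hk hdvd => by
      have := hS k hk
      rw [← Nat.not_even_iff_odd] at this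
      exact this (even_iff_two_dvd.2 hdvd)) ε hε
    exact ⟨r₀, hr, fun r hr1 hr2 => by simpa using h r hr1 hr2⟩

end Pool.Agent.Results.MP_c6f924_an.CoefficientLimits
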