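import Mathlib
import Pool.Prelude.Def_F_c31e40fa
import Pool.Agent.TH653.MD.D6

set_option autoImplicit false

open Filter Topology N62a1eb23

namespace Pool.Agent.Results.MP_c6f924_an.GrowthAngles

open Pool.Agent.H713R2

/-- The angles at which the derivative of the exterior conformal map `ψ` of the Mandelbrot set (the
map exists) grows, or decays, or turns, like a power. Write `log ψ' z = ∑ a m / z ^ m` with
`a 0 = 0`. There is `c > 0` such that for every `s` with `0 < s < 1`: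

(1) for every complex `p` with `|p| = 1`, the set of the angles `θ` in `[0, 2π]` such that
`Re (p log ψ' (r e ^ (i θ))) ≥ c s log (1 / (r - 1))` for some `r > 1` arbitrarily close to `1` has
Hausdorff dimension at least `1 - s ^ 2`;

(2) the set of the angles `θ` such that `|ψ' (r e ^ (i θ))| ≥ (1 / (r - 1)) ^ (c s)` for some
`r > 1` arbitrarily close to `1` has Hausdorff dimension at least `1 - s ^ 2`;

(3) the set of the angles `θ` such that `|ψ' (r e ^ (i θ))| ≤ (r - 1) ^ (c s)` for some `r > 1`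
arbitrarily close to `1` has Hausdorff dimension at least `1 - s ^ 2`. -/
theorem result :
    (∃ ψ : ℂ → ℂ, IsExteriorMap mandelbrotSet ψ) ∧
    ∀ ψ : ℂ → ℂ, IsExteriorMap mandelbrotSet ψ →
      ∃ a : ℕ → ℂ, a 0 = 0 ∧
        (∀ z : ℂ, 1 < ‖z‖ → Summable (fun m : ℕ => a m / z ^ m) ∧
          Complex.exp (∑' m : ℕ, a m / z ^ m) = deriv ψ z) ∧
        ∃ c : ℝ, 0 < c ∧ ∀ s : ℝ, 0 < s → s < 1 →
          (∀ p : ℂ, ‖p‖ = 1 → ENNReal.ofReal (1 - s ^ 2) ≤
            dimH {θ : ℝ | θ ∈ Set.Icc 0 (2 * Real.pi) ∧ ∃ᶠ r : ℝ in 𝓝[>] 1,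
              c * s * Real.log (1 / (r - 1)) ≤
                (p * ∑' m : ℕ, a m / (r * Complex.exp (θ * Complex.I)) ^ m).re}) ∧
          ENNReal.ofReal (1 - s ^ 2) ≤
            dimH {θ : ℝ | θ ∈ Set.Icc 0 (2 * Real.pi) ∧ ∃ᶠ r : ℝ in 𝓝[>] 1,
              (1 / (r - 1)) ^ (c * s) ≤ ‖deriv ψ (r * Complex.exp (θ * Complex.I))‖} ∧
          ENNReal.ofReal (1 - s ^ 2) ≤
            dimH {θ : ℝ | θ ∈ Set.Icc 0 (2 * Real.pi) ∧ ∃ᶠ r : ℝ in 𝓝[>] 1,
              ‖deriv ψ (r * Complex.exp (θ * Complex.I))‖ ≤ (r - 1) ^ (c * s)} := by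
  obtain ⟨β, hβ⟩ := exists_beta (d := 2) le_rfl
  refine ⟨⟨_, exteriorMap_of_beta hβ⟩, ?_⟩
  intro ψ hψ
  exact Pool.Agent.TH653.MD.dim_angles (d := 2) le_rfl hψ

end Pool.Agent.Results.MP_c6f924_an.GrowthAngles
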