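import Mathlib
import Pool.Prelude.Def_F_c31e40fa
import Pool.Agent.TH363.IM.Dev

set_option autoImplicit false

open N62a1eb23

namespace Pool.Agent.Results.MP_c6f924_an.IntegralMeans

open Pool.Agent.H713R2

/-- The derivative of the exterior conformal map `ψ` of the Mandelbrot set (the map exists).

(1) For every real `p ≠ 0` and every real `ε` with `4 ^ ε < cosh (p / 5)` there is `c > 0` such
that the mean of `|ψ'| ^ p` over the circle of radius `r` is at least `c (r - 1) ^ (-ε)` for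
`1 < r < 2`.

(2) There are `C, s₀ > 0` such that for `0 < s ≤ s₀` and `r > 1` close enough to `1`, the set of
angles with `|ψ'| ≥ (r - 1) ^ (-s)` and the set of angles with `|ψ'| ≤ (r - 1) ^ s` on the circle
of radius `r` both have measure at least `(r - 1) ^ (C s ^ 2)`. -/
theorem result :
    (∃ ψ : ℂ → ℂ, IsExteriorMap mandelbrotSet ψ) ∧
    ∀ ψ : ℂ → ℂ, IsExteriorMap mandelbrotSet ψ →
      (∀ p ε : ℝ, p ≠ 0 → (4 : ℝ) ^ ε < Real.cosh (p / 5) → ∃ c : ℝ, 0 < c ∧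
        ∀ r : ℝ, 1 < r → r < 2 → c * (r - 1) ^ (-ε) ≤
          (2 * Real.pi)⁻¹ * ∫ θ in (0 : ℝ)..2 * Real.pi,
            ‖deriv ψ (r * Complex.exp (θ * Complex.I))‖ ^ p) ∧
      ∃ C s₀ : ℝ, 0 < C ∧ 0 < s₀ ∧ ∀ s : ℝ, 0 < s → s ≤ s₀ → ∃ r₀ : ℝ, 1 < r₀ ∧
        ∀ r : ℝ, 1 < r → r < r₀ →
          ENNReal.ofReal ((r - 1) ^ (C * s ^ 2)) ≤
            MeasureTheory.volume {θ : ℝ | θ ∈ Set.Ioc 0 (2 * Real.pi) ∧
              (r - 1) ^ (-s) ≤ ‖deriv ψ (r * Complex.exp (θ * Complex.I))‖} ∧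
          ENNReal.ofReal ((r - 1) ^ (C * s ^ 2)) ≤
            MeasureTheory.volume {θ : ℝ | θ ∈ Set.Ioc 0 (2 * Real.pi) ∧
              ‖deriv ψ (r * Complex.exp (θ * Complex.I))‖ ≤ (r - 1) ^ s} := by
  obtain ⟨β, hβ⟩ := exists_beta (d := 2) le_rfl
  refine ⟨⟨_, exteriorMap_of_beta hβ⟩, fun ψ hψ => ⟨fun p ε hp hε => ?_, ?_⟩⟩
  · apply Pool.Agent.TH363.IM.growth_means hψ hp
    rwa [Real.rpow_mul (by norm_num : (0 : ℝ) ≤ 2), show (2 : ℝ) ^ (2 : ℝ) = 4 by norm_num]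
  · exact Pool.Agent.TH363.IM.deviations hψ

end Pool.Agent.Results.MP_c6f924_an.IntegralMeans
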